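import Mathlib
import Pool.Agent.MP_12aee2_gt.Main

namespace Pool.Agent.Results.MP_12aee2_gt.IrrationalTorus

open Pool.Agent.MP_12aee2_gt

/-- The weak Poisson bracket conjecture fails: there is a closed symplectic four-manifold with
finite open covers `U k` by displaceable open sets (all with the same number of sets) such that
`pb (U k)` tends to zero. -/
theorem result : ∃ (M : ClosedMfd 4) (σ : TwoForm M), IsSymplectic σ ∧
    ∃ (N : ℕ) (U : ℕ → Fin N → Set M.carrier), (∀ k, IsDisplaceableCover σ (U k)) ∧
      Filter.Tendsto (fun k => pbCover σ (U k)) Filter.atTop (nhds 0) :=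
  ⟨torus, tform, isSymplectic_tform, main⟩

end Pool.Agent.Results.MP_12aee2_gt.IrrationalTorus
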