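import Mathlib
import Pool.Agent.MP_12aee2_gt.h38.Main2
import Pool.Agent.MP_12aee2_gt.h38.Euc

namespace Pool.Agent.Results.MP_12aee2_gt.LiftVolume

open Pool.Agent.MP_12aee2_gt

/-- Let `q` be a regular covering of a closed symplectic `2n`-manifold with a continuous section
`s j` over each set `U j` of a finite open cover. Suppose that every finite open cover by sets that
lift into the star of a point has a point in `2n + 1` of its sets, or that some continuous map from
Euclidean `2n`-space to `E` has uniformly bounded preimages of the translates of each compact set.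
Then `pb(U)^n` times the volume of some `U j` is at least a constant that depends only on `n`. -/
theorem result (n N : ℕ) (M : ClosedMfd (2 * n)) (σ : TwoForm M) (hσ : IsSymplectic σ)
    (E G : Type) [TopologicalSpace E] [Group G] [MulAction G E] (q : E → M.carrier)
    (hq : IsQuotientCoveringMap q G) (U : Fin N → Set M.carrier) (ho : ∀ i, IsOpen (U i))
    (hc : ⋃ i, U i = Set.univ) (s : Fin N → M.carrier → E)
    (hs : ∀ j, ContinuousOn (s j) (U j) ∧ ∀ x ∈ U j, q (s j x) = x)
    (hH : (∀ V : Set (Set M.carrier), V.Finite →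
        (∀ W ∈ V, IsOpen W ∧ LiftsIntoStar G q U s W) → ⋃₀ V = Set.univ →
        ∃ x, 2 * n + 1 ≤ {W ∈ V | x ∈ W}.ncard) ∨
      ∃ k : (Fin (2 * n) → ℝ) → E, Continuous k ∧ ∀ K : Set E, IsCompact K →
        ∃ D : ℝ, ∀ (g : G) (x y : Fin (2 * n) → ℝ), g • k x ∈ K → g • k y ∈ K → dist x y ≤ D) :
    ∃ j, 1 / (8 * ((2 * n).factorial : ℝ) * (8 * (2 * n + 1) * (4 * n + 1)) ^ (2 * n))
      ≤ (pbCover σ U).toReal ^ n * (vol σ (U j)).toReal := by
  refine H38.main2 hσ hq ho hc hs (hH.elim id fun ⟨k, hk, hb⟩ V hV hW hVc => ?_)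
  refine H38.Euc.mult hq hk hb V hV (fun W h => ⟨(hW W h).1, ?_⟩) hVc
  obtain ⟨_, t, ht, h'⟩ := (hW W h).2
  exact ⟨t, ht, fun y hy => (h' y hy).1⟩

end Pool.Agent.Results.MP_12aee2_gt.LiftVolume
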