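import Mathlib
import Pool.Agent.MP_12aee2_gt.h38.Main

namespace Pool.Agent.Results.MP_12aee2_gt.StarVolume

open Pool.Agent.MP_12aee2_gt

/-- On a closed symplectic `2n`-manifold, let `U` be a finite open cover such that every open
cover `V` with `V i ⊆ U i` has a point in `2n + 1` of its sets. Then `pb(U)^n` times the volume of
the union of the sets containing some point `x` is at least a constant that depends only on `n`. -/
theorem result (n N : ℕ) (M : ClosedMfd (2 * n)) (σ : TwoForm M) (hσ : IsSymplectic σ)
    (U : Fin N → Set M.carrier) (ho : ∀ i, IsOpen (U i)) (hc : ⋃ i, U i = Set.univ)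
    (hU : Overlaps (2 * n + 1) U) :
    ∃ x, 1 / (4 * ((2 * n).factorial : ℝ) * ((2 * n + 1).factorial : ℝ) ^ 2)
      ≤ (pbCover σ U).toReal ^ n * (vol σ (starAt U x)).toReal :=
  H38.main hσ ho hc hU

end Pool.Agent.Results.MP_12aee2_gt.StarVolume
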